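import Mathlib

set_option autoImplicit false

/-! # Project PG (helper378), task C (helper890): counting with several residue classes per prime -/

namespace Pool.Agent.H890R2.PG

open Finset

/-- Chinese remainder theorem for a finite family of pairwise coprime integers -/
theorem crt_fin {ι : Type} [DecidableEq ι] (S : Finset ι) (m : ι → ℤ) (v : ι → ℤ) :
    (∀ i ∈ S, ∀ j ∈ S, i ≠ j → IsCoprime (m i) (m j)) →
    ∃ c : ℤ, ∀ i ∈ S, m i ∣ c - v i := by
  induction S using Finset.induction_on with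
  | empty => intro _; exact ⟨0, by simp⟩
  | @insert a s ha ih =>
    intro h
    obtain ⟨c, hc⟩ := ih (fun i hi j hj hij => h i (Finset.mem_insert_of_mem hi) j
      (Finset.mem_insert_of_mem hj) hij)
    have hcop : IsCoprime (m a) (∏ i ∈ s, m i) := by
      apply IsCoprime.prod_right
      intro i hi
      apply h a (Finset.mem_insert_self _ _) i (Finset.mem_insert_of_mem hi)
      rintro rfl
      exact ha hi
    obtain ⟨u, w, huw⟩ := hcop
    refine ⟨c * (u * m a) + v a * (w * ∏ i ∈ s, m i), ?_⟩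
    intro i hi
    rcases Finset.mem_insert.1 hi with rfl | hi
    · refine ⟨u * (c - v i), ?_⟩
      linear_combination (v i) * huw
    · obtain ⟨k, hk⟩ := hc i hi
      obtain ⟨l, hl⟩ := Finset.dvd_prod_of_mem m hi
      refine ⟨k + (v a - c) * w * l, ?_⟩
      rw [hl] at huw ⊢
      linear_combination hk + c * huw

open Classical in
theorem count_gen {ι : Type} (S : Finset ι) (p : ι → ℕ)
    (hp : ∀ i ∈ S, (p i).Prime) (hinj : ∀ i ∈ S, ∀ j ∈ S, i ≠ j → p i ≠ p j) (R : ι → Finset ℤ)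
    (hR : ∀ i ∈ S, ∀ r ∈ R i, ∀ r' ∈ R i, (p i : ℤ) ∣ r - r' → r = r')
    (𝒜 : Finset ℤ) (N Err : ℝ)
    (hcount : ∀ c : ℤ, |((𝒜.filter (fun x => ((∏ i ∈ S, p i : ℕ) : ℤ) ∣ x - c)).card : ℝ) -
      N / ((∏ i ∈ S, p i : ℕ) : ℝ)| ≤ Err) :
    |((𝒜.filter (fun x => ∀ i ∈ S, ∃ r ∈ R i, (p i : ℤ) ∣ x - r)).card : ℝ) -
      N * ∏ i ∈ S, (((R i).card : ℝ) / (p i : ℝ))| ≤ (∏ i ∈ S, ((R i).card : ℝ)) * Err := by
  set q : ℕ := ∏ i ∈ S, p i with hq
  have hcop : ∀ i ∈ S, ∀ j ∈ S, i ≠ j → IsCoprime ((p i : ℕ) : ℤ) ((p j : ℕ) : ℤ) :=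
    fun i hi j hj hij => Nat.isCoprime_iff_coprime.mpr
      ((Nat.coprime_primes (hp i hi) (hp j hj)).2 (hinj i hi j hj hij))
  have hc : ∀ f : (∀ i ∈ S, ℤ), ∃ c : ℤ, ∀ i (hi : i ∈ S), (p i : ℤ) ∣ c - f i hi := by
    intro f
    obtain ⟨c, hc⟩ := crt_fin S (fun i => ((p i : ℕ) : ℤ))
      (fun i => if h : i ∈ S then f i h else 0) hcop
    refine ⟨c, fun i hi => ?_⟩
    have h1 := hc i hi
    rwa [dif_pos hi] at h1
  choose c hc using hc
  have hqdvd : ∀ y : ℤ, (∀ i ∈ S, (p i : ℤ) ∣ y) ↔ (q : ℤ) ∣ y := by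
    intro y
    constructor
    · intro h
      have : ((q : ℕ) : ℤ) = ∏ i ∈ S, ((p i : ℕ) : ℤ) := by rw [hq]; push_cast; rfl
      rw [this]
      exact Finset.prod_dvd_of_coprime (fun i hi j hj hij => hcop i hi j hj hij) h
    · intro h i hi
      refine dvd_trans ?_ h
      have : p i ∣ q := Finset.dvd_prod_of_mem _ hi
      exact_mod_cast this
  have hF : 𝒜.filter (fun x => ∀ i ∈ S, ∃ r ∈ R i, (p i : ℤ) ∣ x - r) =
      (S.pi R).biUnion (fun f => 𝒜.filter (fun x => (q : ℤ) ∣ x - c f)) := by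
    ext x
    simp only [Finset.mem_filter, Finset.mem_biUnion, Finset.mem_pi]
    constructor
    · rintro ⟨hx, h⟩
      choose r hr hdr using h
      refine ⟨r, hr, hx, (hqdvd _).1 fun i hi => ?_⟩
      have h1 := dvd_sub (hdr i hi) (hc r i hi)
      have e : x - r i hi - (c r - r i hi) = x - c r := by ring
      rwa [e] at h1
    · rintro ⟨f, hf, hx, h⟩
      refine ⟨hx, fun i hi => ⟨f i hi, hf i hi, ?_⟩⟩
      have h1 := dvd_add ((hqdvd _).2 h i hi) (hc f i hi)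
      have e : x - c f + (c f - f i hi) = x - f i hi := by ring
      rwa [e] at h1
  have hdisj : ∀ f ∈ S.pi R, ∀ g ∈ S.pi R, f ≠ g →
      Disjoint (𝒜.filter (fun x => (q : ℤ) ∣ x - c f)) (𝒜.filter (fun x => (q : ℤ) ∣ x - c g)) := by
    intro f hf g hg hfg
    rw [Finset.disjoint_left]
    intro x hx hy
    apply hfg
    rw [Finset.mem_filter] at hx hy
    funext i hi
    have h1 := dvd_add ((hqdvd _).2 hx.2 i hi) (hc f i hi)
    have h2 := dvd_add ((hqdvd _).2 hy.2 i hi) (hc g i hi)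
    have h3 := dvd_sub h2 h1
    have e : x - c g + (c g - g i hi) - (x - c f + (c f - f i hi)) = f i hi - g i hi := by ring
    rw [e] at h3
    exact hR i hi _ (Finset.mem_pi.1 hf i hi) _ (Finset.mem_pi.1 hg i hi) h3
  have h1 : ((𝒜.filter (fun x => ∀ i ∈ S, ∃ r ∈ R i, (p i : ℤ) ∣ x - r)).card : ℝ) =
      ∑ f ∈ S.pi R, ((𝒜.filter (fun x => (q : ℤ) ∣ x - c f)).card : ℝ) := by
    rw [hF, Finset.card_biUnion hdisj]
    push_cast
    rfl
  have h2 : N * ∏ i ∈ S, (((R i).card : ℝ) / (p i : ℝ)) = ∑ f ∈ S.pi R, N / (q : ℝ) := by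
    rw [Finset.sum_const, Finset.card_pi, nsmul_eq_mul, Finset.prod_div_distrib, hq]
    push_cast
    ring
  have h3 : (∏ i ∈ S, ((R i).card : ℝ)) * Err = ∑ f ∈ S.pi R, Err := by
    rw [Finset.sum_const, Finset.card_pi, nsmul_eq_mul]
    push_cast
    ring
  rw [h1, h2, h3, ← Finset.sum_sub_distrib]
  exact (Finset.abs_sum_le_sum_abs _ _).trans (Finset.sum_le_sum fun f _ => hcount (c f))

end Pool.Agent.H890R2.PG
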